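import Mathlib

set_option autoImplicit false

/-!
# The automorphism group of the wreath-type blow-up of a 1-design

For every 1-design with block size `k ≥ 2` and every `e ≥ 2` with `e ≥ 3` or `k ≥ 3` the
automorphism group of the blow-up `D(D, e)` is the wreath product `Aut D ≀ S_e`.
-/

namespace Pool.Agent.Results.MP_482303_co.WreathAutomorphisms

open Finset

/-- The permutations of `X` that map the set of blocks `𝓑` onto itself. -/
def Aut {X : Type} (𝓑 : Set (Finset X)) : Set (Equiv.Perm X) :=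
  {g | (fun B : Finset X => B.map g.toEmbedding) '' 𝓑 = 𝓑}

/-- The blocks of the blow-up on `V × Δ`: for some `i` the part of `B` in `V × {i}` is a block of
`𝓑`, and for all `j ≠ i` exactly one point of `V × {j}` is in `B`. -/
def blowup {V : Type} (Δ : Type) (𝓑 : Set (Finset V)) : Set (Finset (V × Δ)) :=
  {B | ∃ i : Δ, (∃ b ∈ 𝓑, ∀ p, (p, i) ∈ B ↔ p ∈ b) ∧ ∀ j, j ≠ i → ∃! p, (p, j) ∈ B}

/-- The elements of the wreath product `H ≀ Sym Δ` in its imprimitive action on `V × Δ`: the
permutations `(p, j) ↦ (h j p, σ j)` with `h j ∈ H` for all `j` and `σ ∈ Sym Δ`. -/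
def wreath {V : Type} (Δ : Type) (H : Set (Equiv.Perm V)) : Set (Equiv.Perm (V × Δ)) :=
  {g | ∃ (h : Δ → Equiv.Perm V) (σ : Equiv.Perm Δ), (∀ j, h j ∈ H) ∧
    ∀ p j, g (p, j) = (h j p, σ j)}

theorem map_mem_iff {X : Type} {𝓑 : Set (Finset X)} {g : Equiv.Perm X} (hg : g ∈ Aut 𝓑)
    (B : Finset X) : B.map g.toEmbedding ∈ 𝓑 ↔ B ∈ 𝓑 := by
  change (fun B : Finset X => B.map g.toEmbedding) '' 𝓑 = 𝓑 at hg
  constructor
  · intro h
    rw [← hg] at h
    obtain ⟨C, hC, h1⟩ := h
    have h2 : C = B := Finset.map_injective _ h1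
    rwa [← h2]
  · intro h
    rw [← hg]
    exact ⟨B, h, rfl⟩

theorem aut_of_iff {X : Type} {𝓑 : Set (Finset X)} {g : Equiv.Perm X}
    (h : ∀ B : Finset X, B.map g.toEmbedding ∈ 𝓑 ↔ B ∈ 𝓑) : g ∈ Aut 𝓑 := by
  change (fun B : Finset X => B.map g.toEmbedding) '' 𝓑 = 𝓑
  ext C
  constructor
  · rintro ⟨B, hB, rfl⟩
    exact (h B).2 hB
  · intro hC
    have e1 : (C.map g.symm.toEmbedding).map g.toEmbedding = C := by
      ext x
      simp
    refine ⟨C.map g.symm.toEmbedding, ?_, e1⟩
    rw [← h, e1]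
    exact hC

theorem symm_mem_Aut {X : Type} {𝓑 : Set (Finset X)} {g : Equiv.Perm X} (hg : g ∈ Aut 𝓑) :
    g.symm ∈ Aut 𝓑 := by
  apply aut_of_iff
  intro B
  rw [← map_mem_iff hg]
  have h : (B.map g.symm.toEmbedding).map g.toEmbedding = B := by
    ext x
    simp
  rw [h]

section

set_option linter.unusedSectionVars false

variable {V Δ : Type} [Fintype V] [Fintype Δ] [DecidableEq V] [DecidableEq Δ]

/-- number of points in a fibre -/
def fc (B : Finset (V × Δ)) (l : Δ) : ℕ := (univ.filter fun p : V => (p, l) ∈ B).card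

theorem fc_eq_one {B : Finset (V × Δ)} {l : Δ} : fc B l = 1 ↔ ∃! p, (p, l) ∈ B := by
  unfold fc
  rw [card_eq_one]
  constructor
  · rintro ⟨a, ha⟩
    refine ⟨a, ?_, ?_⟩
    · have : a ∈ univ.filter fun p : V => (p, l) ∈ B := by rw [ha]; simp
      simpa using this
    · intro y hy
      have : y ∈ univ.filter fun p : V => (p, l) ∈ B := by simpa using hy
      rw [ha] at this
      simpa using this
  · rintro ⟨a, ha, hu⟩
    refine ⟨a, ?_⟩
    ext y
    simp only [mem_filter, mem_univ, true_and, mem_singleton]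
    exact ⟨fun h => hu y h, fun h => h ▸ ha⟩

theorem fc_insert {B : Finset (V × Δ)} {q : V} {l : Δ} (h : (q, l) ∉ B) (m : Δ) :
    fc (insert (q, l) B) m = fc B m + if l = m then 1 else 0 := by
  unfold fc
  by_cases hlm : l = m
  · subst hlm
    rw [if_pos rfl]
    have h1 : (univ.filter fun p : V => (p, l) ∈ insert (q, l) B) =
        insert q (univ.filter fun p : V => (p, l) ∈ B) := by
      ext p
      simp
    rw [h1, card_insert_of_notMem (by simpa using h)]
  · rw [if_neg hlm, add_zero]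
    congr 1
    ext p
    simp only [mem_filter, mem_univ, true_and, mem_insert, Prod.mk.injEq]
    constructor
    · rintro (⟨-, h1⟩ | h1)
      · exact absurd h1.symm hlm
      · exact h1
    · exact Or.inr

variable {𝓑 : Set (Finset V)} {k : ℕ}

theorem profile (hk : ∀ b ∈ 𝓑, b.card = k) {B : Finset (V × Δ)} (hB : B ∈ blowup Δ 𝓑) :
    ∃ i, (∃ b ∈ 𝓑, ∀ p, (p, i) ∈ B ↔ p ∈ b) ∧ ∀ l, fc B l = if l = i then k else 1 := by
  obtain ⟨i, ⟨b, hb, hbi⟩, h2⟩ := hB
  refine ⟨i, ⟨b, hb, hbi⟩, ?_⟩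
  intro l
  by_cases hl : l = i
  · subst hl
    rw [if_pos rfl, ← hk b hb]
    unfold fc
    congr 1
    ext p
    simp [hbi]
  · rw [if_neg hl]
    exact fc_eq_one.2 (h2 l hl)

/-- the points which complete `C` to a block -/
def E (Δ : Type) (𝓑 : Set (Finset V)) [DecidableEq Δ] (C : Finset (V × Δ)) : Set (V × Δ) :=
  {y | y ∉ C ∧ insert y C ∈ blowup Δ 𝓑}

theorem map_E {g : Equiv.Perm (V × Δ)} (hg : g ∈ Aut (blowup Δ 𝓑)) (C : Finset (V × Δ))
    (y : V × Δ) : g y ∈ E Δ 𝓑 (C.map g.toEmbedding) ↔ y ∈ E Δ 𝓑 C := by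
  unfold E
  simp only [Set.mem_ofPred_eq]
  have h1 : insert (g y) (C.map g.toEmbedding) = (insert y C).map g.toEmbedding := by
    rw [map_insert]
    rfl
  rw [h1, map_mem_iff hg]
  simp

/-- a block in the fibre `i`, nothing in the fibre `j` and one point in every other fibre -/
def C1 (i j : Δ) (b : Finset V) (p0 : V) : Finset (V × Δ) :=
  univ.filter fun x => (x.2 = i ∧ x.1 ∈ b) ∨ (x.2 ≠ i ∧ x.2 ≠ j ∧ x.1 = p0)

theorem E_C1 (hk : ∀ b ∈ 𝓑, b.card = k) (hk2 : 2 ≤ k) {i j : Δ} (hij : i ≠ j) {b : Finset V}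
    (hb : b ∈ 𝓑) (p0 : V) (y : V × Δ) : y ∈ E Δ 𝓑 (C1 i j b p0) ↔ y.2 = j := by
  obtain ⟨q, l⟩ := y
  constructor
  · rintro ⟨h1, h2⟩
    obtain ⟨i', -, h3⟩ := profile hk h2
    have h4 := h3 j
    rw [fc_insert h1] at h4
    have h5 : fc (C1 i j b p0) j = 0 := by
      unfold fc C1
      rw [card_eq_zero, filter_eq_empty_iff]
      intro p _
      simp only [mem_filter, mem_univ, true_and, not_or, not_and]
      exact ⟨fun h => absurd h.symm hij, fun _ h => absurd rfl h⟩
    rw [h5, zero_add] at h4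
    by_contra hne
    rw [if_neg hne] at h4
    split_ifs at h4 <;> omega
  · intro h
    change l = j at h
    subst h
    refine ⟨?_, i, ⟨b, hb, ?_⟩, ?_⟩
    · unfold C1
      simp only [mem_filter, mem_univ, true_and, not_or, not_and]
      exact ⟨fun h => absurd h.symm hij, fun _ h => absurd rfl h⟩
    · intro p
      unfold C1
      simp only [mem_insert, Prod.mk.injEq, mem_filter, mem_univ, true_and]
      constructor
      · rintro (⟨-, h⟩ | h | h)
        · exact absurd h hij
        · exact h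
        · exact absurd rfl h.1
      · intro h
        exact Or.inr (Or.inl h)
    · intro m hm
      unfold C1
      simp only [mem_insert, Prod.mk.injEq, mem_filter, mem_univ, true_and]
      by_cases hml : m = l
      · subst hml
        refine ⟨q, Or.inl ⟨rfl, rfl⟩, ?_⟩
        rintro p (h | h | h)
        · exact h.1
        · exact absurd h.1 hm
        · exact absurd rfl h.2.1
      · refine ⟨p0, Or.inr (Or.inr ⟨hm, hml, rfl⟩), ?_⟩
        rintro p (h | h | h)
        · exact absurd h.2 hml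
        · exact absurd h.1 hm
        · exact h.2.2

/-- two completing points in different fibres: the block size is `2` and `C` is a transversal -/
theorem transversal_of (hk : ∀ b ∈ 𝓑, b.card = k) (hk2 : 2 ≤ k) {C : Finset (V × Δ)}
    {y z : V × Δ} (hy : y ∈ E Δ 𝓑 C) (hz : z ∈ E Δ 𝓑 C) (hne : y.2 ≠ z.2) :
    k = 2 ∧ ∀ l, fc C l = 1 := by
  obtain ⟨q1, l1⟩ := y
  obtain ⟨q2, l2⟩ := z
  change l1 ≠ l2 at hne
  obtain ⟨h1, h2⟩ := hy
  obtain ⟨h3, h4⟩ := hz
  obtain ⟨i1, -, h5⟩ := profile hk h2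
  obtain ⟨i2, -, h6⟩ := profile hk h4
  have h7 : ∀ m, fc C m + (if l1 = m then 1 else 0) = if m = i1 then k else 1 := by
    intro m
    rw [← h5 m, fc_insert h1]
  have h8 : ∀ m, fc C m + (if l2 = m then 1 else 0) = if m = i2 then k else 1 := by
    intro m
    rw [← h6 m, fc_insert h3]
  have a1 := h7 l1
  have a2 := h8 l1
  have b1 := h7 l2
  have b2 := h8 l2
  rw [if_pos rfl] at a1 b2
  rw [if_neg hne.symm] at a2
  rw [if_neg hne] at b1
  have c1 : l1 = i1 := by
    by_contra h
    rw [if_neg h] at a1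
    split_ifs at a2 <;> omega
  have c2 : l2 = i2 := by
    by_contra h
    rw [if_neg h] at b2
    split_ifs at b1 <;> omega
  subst c1
  subst c2
  rw [if_pos rfl] at a1 b2
  rw [if_neg hne] at a2
  rw [if_neg hne.symm] at b1
  refine ⟨by omega, ?_⟩
  intro m
  have d1 := h7 m
  have d2 := h8 m
  by_cases e1 : m = l1
  · subst e1; omega
  · rw [if_neg (Ne.symm e1), if_neg e1] at d1
    omega

/-- recognising the blocks of the blow-up whose fibre over `i` has at least two points -/
theorem mem_blowup_iff {B : Finset (V × Δ)} {i : Δ} {b : Finset V} (hb : 2 ≤ b.card)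
    (h1 : ∀ p, (p, i) ∈ B ↔ p ∈ b) (h2 : ∀ j, j ≠ i → ∃! p, (p, j) ∈ B) :
    B ∈ blowup Δ 𝓑 ↔ b ∈ 𝓑 := by
  constructor
  · rintro ⟨i', ⟨b', hb', h3⟩, h4⟩
    have e1 : i = i' := by
      by_contra hne
      obtain ⟨p, -, hu⟩ := h4 i hne
      have : b.card ≤ 1 := by
        rw [card_le_one]
        intro x hx y hy
        rw [hu x ((h1 x).2 hx), hu y ((h1 y).2 hy)]
      omega
    subst e1
    have e2 : b = b' := by
      ext p
      rw [← h1, h3]
    rw [e2]
    exact hb'
  · intro h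
    exact ⟨i, ⟨b, h, h1⟩, h2⟩

omit [Fintype V] [Fintype Δ] [DecidableEq V] [DecidableEq Δ] in
theorem wreath_le (g : Equiv.Perm (V × Δ)) (hg : g ∈ wreath Δ (Aut 𝓑)) {B : Finset (V × Δ)}
    (hB : B ∈ blowup Δ 𝓑) : B.map g.toEmbedding ∈ blowup Δ 𝓑 := by
  obtain ⟨h, σ, hh, hg⟩ := hg
  obtain ⟨i, ⟨b, hb, h1⟩, h2⟩ := hB
  have key : ∀ p j, (p, σ j) ∈ B.map g.toEmbedding ↔ ((h j).symm p, j) ∈ B := by
    intro p j
    rw [mem_map]
    constructor
    · rintro ⟨⟨q, l⟩, hq, he⟩
      change g (q, l) = _ at he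
      rw [hg] at he
      have e1 : h l q = p := congrArg Prod.fst he
      have e2 : l = j := σ.injective (congrArg Prod.snd he)
      subst e2
      rw [← e1, Equiv.symm_apply_apply]
      exact hq
    · intro hq
      refine ⟨_, hq, ?_⟩
      change g _ = _
      rw [hg, Equiv.apply_symm_apply]
  refine ⟨σ i, ⟨b.map (h i).toEmbedding, (map_mem_iff (hh i) b).2 hb, ?_⟩, ?_⟩
  · intro p
    rw [key, h1]
    constructor
    · intro hp
      rw [mem_map]
      exact ⟨_, hp, (h i).apply_symm_apply p⟩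
    · intro hp
      rw [mem_map] at hp
      obtain ⟨q, hq, rfl⟩ := hp
      change (h i).symm (h i q) ∈ b
      rwa [Equiv.symm_apply_apply]
  · intro j hj
    obtain ⟨j, rfl⟩ := σ.surjective j
    have hj' : j ≠ i := fun e => hj (by rw [e])
    obtain ⟨p, hp, hu⟩ := h2 j hj'
    refine ⟨h j p, ?_, ?_⟩
    · change (h j p, σ j) ∈ _
      rw [key, Equiv.symm_apply_apply]
      exact hp
    · intro q hq
      change (q, σ j) ∈ _ at hq
      rw [key] at hq
      rw [← hu _ hq, Equiv.apply_symm_apply]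

omit [Fintype V] [Fintype Δ] [DecidableEq V] [DecidableEq Δ] in
theorem wreath_symm (g : Equiv.Perm (V × Δ)) (hg : g ∈ wreath Δ (Aut 𝓑)) :
    g.symm ∈ wreath Δ (Aut 𝓑) := by
  obtain ⟨h, σ, hh, hg⟩ := hg
  refine ⟨fun j => (h (σ.symm j)).symm, σ.symm, fun j => symm_mem_Aut (hh _), ?_⟩
  intro p j
  rw [Equiv.symm_apply_eq, hg]
  simp

/-- a block in the fibre `i` and one point in every other fibre -/
def T (i : Δ) (b : Finset V) (p0 : V) : Finset (V × Δ) :=
  univ.filter fun x => (x.2 = i ∧ x.1 ∈ b) ∨ (x.2 ≠ i ∧ x.1 = p0)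

theorem mem_T {i : Δ} {b : Finset V} {p0 : V} {p : V} {j : Δ} :
    (p, j) ∈ T i b p0 ↔ (j = i ∧ p ∈ b) ∨ (j ≠ i ∧ p = p0) := by
  unfold T
  simp

/-- the action on the blocks if `g` preserves the fibres -/
theorem fibre_block {g : Equiv.Perm (V × Δ)} (hg : g ∈ Aut (blowup Δ 𝓑)) (h : Δ → Equiv.Perm V)
    (σ : Equiv.Perm Δ) (hgh : ∀ p j, g (p, j) = (h j p, σ j)) (p0 : V) (j : Δ) (b : Finset V)
    (hb : 2 ≤ b.card) : b.map (h j).toEmbedding ∈ 𝓑 ↔ b ∈ 𝓑 := by
  have h1 : T j b p0 ∈ blowup Δ 𝓑 ↔ b ∈ 𝓑 := by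
    apply mem_blowup_iff (i := j) hb
    · intro p
      rw [mem_T]
      simp
    · intro l hl
      refine ⟨p0, ?_, ?_⟩
      · change (p0, l) ∈ _
        rw [mem_T]
        exact Or.inr ⟨hl, rfl⟩
      · intro q hq
        change (q, l) ∈ _ at hq
        rw [mem_T] at hq
        rcases hq with hq | hq
        · exact absurd hq.1 hl
        · exact hq.2
  have key : ∀ p l, (p, σ l) ∈ (T j b p0).map g.toEmbedding ↔ ((h l).symm p, l) ∈ T j b p0 := by
    intro p l
    rw [mem_map]
    constructor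
    · rintro ⟨⟨q, m⟩, hq, he⟩
      change g (q, m) = _ at he
      rw [hgh] at he
      have e1 : h m q = p := congrArg Prod.fst he
      have e2 : m = l := σ.injective (congrArg Prod.snd he)
      subst e2
      rw [← e1, Equiv.symm_apply_apply]
      exact hq
    · intro hq
      refine ⟨_, hq, ?_⟩
      change g _ = _
      rw [hgh, Equiv.apply_symm_apply]
  have h2 : (T j b p0).map g.toEmbedding ∈ blowup Δ 𝓑 ↔ b.map (h j).toEmbedding ∈ 𝓑 := by
    apply mem_blowup_iff (i := σ j) (by rwa [card_map])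
    · intro p
      rw [key, mem_T]
      rw [mem_map_equiv]
      simp
    · intro l hl
      obtain ⟨l, rfl⟩ := σ.surjective l
      have hl' : l ≠ j := fun e => hl (by rw [e])
      refine ⟨h l p0, ?_, ?_⟩
      · change (h l p0, σ l) ∈ _
        rw [key, mem_T, Equiv.symm_apply_apply]
        exact Or.inr ⟨hl', rfl⟩
      · intro q hq
        change (q, σ l) ∈ _ at hq
        rw [key, mem_T] at hq
        rcases hq with hq | hq
        · exact absurd hq.1 hl'
        · rw [← hq.2, Equiv.apply_symm_apply]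
  rw [← h2, map_mem_iff hg, h1]

open Classical in
/-- the neighbours of a point if the blocks have size two -/
noncomputable def nb (𝓑 : Set (Finset V)) (p : V) : Finset V :=
  univ.filter fun q => q ≠ p ∧ ({q, p} : Finset V) ∈ 𝓑

omit [Fintype Δ] [DecidableEq Δ] in
theorem mem_nb {p q : V} : q ∈ nb 𝓑 p ↔ q ≠ p ∧ ({q, p} : Finset V) ∈ 𝓑 := by
  unfold nb
  simp

theorem nb_symm {p q : V} : q ∈ nb 𝓑 p ↔ p ∈ nb 𝓑 q := by
  rw [mem_nb, mem_nb, ne_comm, pair_comm]

theorem card_nb (hk : ∀ b ∈ 𝓑, b.card = 2) {r : ℕ} (p : V)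
    (hr : {b | b ∈ 𝓑 ∧ p ∈ b}.ncard = r) : (nb 𝓑 p).card = r := by
  classical
  rw [← hr]
  have h1 : {b | b ∈ 𝓑 ∧ p ∈ b} = (fun q : V => ({q, p} : Finset V)) '' (nb 𝓑 p : Set V) := by
    ext b
    simp only [Set.mem_ofPred_eq, Set.mem_image, mem_coe]
    constructor
    · rintro ⟨hb, hp⟩
      obtain ⟨x, y, hxy, rfl⟩ := card_eq_two.1 (hk b hb)
      rw [mem_insert, mem_singleton] at hp
      rcases hp with rfl | rfl
      · refine ⟨y, mem_nb.2 ⟨hxy.symm, ?_⟩, pair_comm _ _⟩
        rwa [pair_comm]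
      · exact ⟨x, mem_nb.2 ⟨hxy, hb⟩, rfl⟩
    · rintro ⟨q, hq, rfl⟩
      rw [mem_nb] at hq
      exact ⟨hq.2, by simp⟩
  rw [h1, Set.InjOn.ncard_image, Set.ncard_coe_finset]
  intro x hx y hy hxy
  have hx' := mem_nb.1 (mem_coe.1 hx)
  change ({x, p} : Finset V) = {y, p} at hxy
  have : x ∈ ({y, p} : Finset V) := by rw [← hxy]; simp
  rw [mem_insert, mem_singleton] at this
  rcases this with h | h
  · exact h
  · exact absurd h hx'.1

/-- the completing points of a transversal -/
theorem mem_E_transversal {C : Finset (V × Δ)} (c : Δ → V)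
    (hC : ∀ p l, (p, l) ∈ C ↔ p = c l) (q : V) (l : Δ) :
    (q, l) ∈ E Δ 𝓑 C ↔ q ∈ nb 𝓑 (c l) := by
  unfold E
  rw [Set.mem_ofPred_eq, mem_nb, hC]
  apply and_congr_right
  intro hq
  apply mem_blowup_iff (i := l)
  · rw [card_pair hq]
  · intro p
    rw [mem_insert, hC, mem_insert, mem_singleton, Prod.mk.injEq]
    simp
  · intro m hm
    refine ⟨c m, ?_, ?_⟩
    · change (c m, m) ∈ _
      rw [mem_insert, hC]
      exact Or.inr rfl
    · intro p hp
      change (p, m) ∈ _ at hp
      rw [mem_insert, hC, Prod.mk.injEq] at hp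
      rcases hp with hp | hp
      · exact absurd hp.2 hm
      · exact hp

/-- the transversal as a function -/
theorem transversal_fun {C : Finset (V × Δ)} (h : ∀ l, fc C l = 1) :
    ∃ c : Δ → V, ∀ p l, (p, l) ∈ C ↔ p = c l := by
  choose c hc hu using fun l => fc_eq_one.1 (h l)
  refine ⟨c, ?_⟩
  intro p l
  constructor
  · intro hp
    exact hu l p hp
  · rintro rfl
    exact hc l

/-- automorphisms of the blow-up preserve the fibres -/
theorem same_fibre (hk : ∀ b ∈ 𝓑, b.card = k) (hk2 : 2 ≤ k) {r : ℕ} (hr1 : 1 ≤ r)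
    (hr : ∀ p, {b | b ∈ 𝓑 ∧ p ∈ b}.ncard = r) (he : 2 ≤ Fintype.card Δ)
    (hek : 3 ≤ Fintype.card Δ ∨ 3 ≤ k) {g : Equiv.Perm (V × Δ)} (hg : g ∈ Aut (blowup Δ 𝓑))
    (x y : V × Δ) (hxy : x.2 = y.2) : (g x).2 = (g y).2 := by
  classical
  by_contra hne
  obtain ⟨j, hj⟩ : ∃ j, x.2 = j := ⟨_, rfl⟩
  have hj' : y.2 = j := hxy ▸ hj
  have hblock : ∀ p, ∃ b ∈ 𝓑, p ∈ b := by
    intro p
    have h1 : {b | b ∈ 𝓑 ∧ p ∈ b}.Nonempty := by
      apply Set.nonempty_of_ncard_ne_zero
      rw [hr p]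
      omega
    obtain ⟨b, hb⟩ := h1
    exact ⟨b, hb.1, hb.2⟩
  have hE : ∀ i, i ≠ j → ∀ b ∈ 𝓑, ∀ z : V × Δ,
      g z ∈ E Δ 𝓑 ((C1 i j b x.1).map g.toEmbedding) ↔ z.2 = j := by
    intro i hij b hb z
    rw [map_E hg, E_C1 hk hk2 hij hb]
  have htr : ∀ i, i ≠ j → ∀ b ∈ 𝓑, k = 2 ∧ ∀ l, fc ((C1 i j b x.1).map g.toEmbedding) l = 1 := by
    intro i hij b hb
    exact transversal_of hk hk2 ((hE i hij b hb x).2 hj) ((hE i hij b hb y).2 hj') hne
  have : Nontrivial Δ := Fintype.one_lt_card_iff_nontrivial.1 (by omega)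
  obtain ⟨i, hij⟩ := exists_ne j
  obtain ⟨b, hb, -⟩ := hblock x.1
  obtain ⟨hk', ht⟩ := htr i hij b hb
  subst hk'
  have he3 : 3 ≤ Fintype.card Δ := by omega
  obtain ⟨c, hc⟩ := transversal_fun ht
  have hEc : ∀ z : V × Δ, (g z).1 ∈ nb 𝓑 (c (g z).2) ↔ z.2 = j := by
    intro z
    rw [← hE i hij b hb z, ← mem_E_transversal c hc]
  -- neighbours of the points of the transversal
  have hs : ∀ l, ∃ s, s ∈ nb 𝓑 (c l) := by
    intro l
    have : (nb 𝓑 (c l)).Nonempty := by
      rw [← card_pos, card_nb hk _ (hr _)]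
      omega
    exact this
  choose s hs using hs
  have hout : ∀ z : V × Δ, z.2 ≠ j → (g z).1 ∈ nb 𝓑 (s (g z).2) := by
    intro z hz
    obtain ⟨b', hb', hzb⟩ := hblock z.1
    obtain ⟨-, ht'⟩ := htr z.2 hz b' hb'
    obtain ⟨c', hc'⟩ := transversal_fun ht'
    have h1 : g z ∈ (C1 z.2 j b' x.1).map g.toEmbedding := by
      rw [mem_map]
      refine ⟨z, ?_, rfl⟩
      unfold C1
      simp [hzb]
    have h2 : (g z).1 = c' (g z).2 := by
      rw [← hc']
      exact h1
    obtain ⟨w, hw⟩ := g.surjective (s (g z).2, (g z).2)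
    have h3 : w.2 = j := by
      rw [← hEc, hw]
      exact hs _
    have h4 : g w ∈ E Δ 𝓑 ((C1 z.2 j b' x.1).map g.toEmbedding) := (hE z.2 hz b' hb' w).2 h3
    rw [hw, mem_E_transversal c' hc', ← h2] at h4
    exact nb_symm.1 h4
  -- counting
  have hcount : ∀ f : Δ → V, (univ.filter fun z : V × Δ => z.1 ∈ nb 𝓑 (f z.2)).card =
      Fintype.card Δ * r := by
    intro f
    have h1 : (univ.filter fun z : V × Δ => z.1 ∈ nb 𝓑 (f z.2)).card =
        ∑ l : Δ, (nb 𝓑 (f l)).card := by
      rw [card_eq_sum_card_fiberwise (f := fun z : V × Δ => z.2) (t := univ) (by simp)]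
      apply sum_congr rfl
      intro l _
      refine card_bij' (fun z _ => z.1) (fun q _ => (q, l)) ?_ ?_ ?_ ?_
      · intro z hz
        simp only [mem_filter, mem_univ, true_and] at hz
        rw [← hz.2]
        exact hz.1
      · intro q hq
        simp only [mem_filter, mem_univ, true_and]
        exact ⟨hq, trivial⟩
      · intro z hz
        simp only [mem_filter, mem_univ, true_and] at hz
        rw [← hz.2]
      · intro q hq
        rfl
    rw [h1, sum_congr rfl (fun l _ => card_nb hk _ (hr _)), sum_const, card_univ, smul_eq_mul]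
  have hin : (univ.filter fun z : V × Δ => z.2 = j).card = Fintype.card Δ * r := by
    rw [← hcount c]
    refine card_bij (fun z _ => g z) ?_ ?_ ?_
    · intro z hz
      simp only [mem_filter, mem_univ, true_and] at hz ⊢
      exact (hEc z).2 hz
    · intro a _ b _ h
      exact g.injective h
    · intro w hw
      simp only [mem_filter, mem_univ, true_and] at hw
      obtain ⟨z, rfl⟩ := g.surjective w
      exact ⟨z, by simpa using (hEc z).1 hw, rfl⟩
  have hle : (univ.filter fun z : V × Δ => z.2 ≠ j).card ≤ Fintype.card Δ * r := by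
    rw [← hcount s]
    apply card_le_card_of_injOn (fun z => g z)
    · intro z hz
      simp only [coe_filter, mem_univ, true_and, Set.mem_ofPred_eq] at hz ⊢
      exact hout z hz
    · intro a _ b _ h
      exact g.injective h
  have hv : (univ.filter fun z : V × Δ => z.2 = j).card = Fintype.card V := by
    have h1 : (univ.filter fun z : V × Δ => z.2 = j) = univ.map ⟨fun p : V => (p, j), fun a b h =>
        congrArg Prod.fst h⟩ := by
      ext ⟨p, l⟩
      rw [mem_filter, mem_map]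
      constructor
      · rintro ⟨-, h⟩
        change l = j at h
        subst h
        exact ⟨p, mem_univ _, rfl⟩
      · rintro ⟨a, -, h⟩
        exact ⟨mem_univ _, (congrArg Prod.snd h).symm⟩
    rw [h1, card_map, card_univ]
  have hsum : (univ.filter fun z : V × Δ => z.2 = j).card +
      (univ.filter fun z : V × Δ => z.2 ≠ j).card = Fintype.card V * Fintype.card Δ := by
    rw [card_filter_add_card_filter_not, card_univ, Fintype.card_prod]
  have hV : 1 ≤ Fintype.card V := Fintype.card_pos_iff.2 ⟨x.1⟩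
  have h5 : Fintype.card V * Fintype.card Δ ≤ Fintype.card V * 2 := by omega
  have h6 : Fintype.card Δ ≤ 2 := Nat.le_of_mul_le_mul_left h5 (by omega)
  omega

end

/-- **Main theorem.** -/
theorem result {V Δ : Type} [Fintype V] [Fintype Δ] (𝓑 : Set (Finset V)) (k r : ℕ)
    (hk : ∀ b ∈ 𝓑, b.card = k) (hk2 : 2 ≤ k) (hr1 : 1 ≤ r)
    (hr : ∀ p, {b | b ∈ 𝓑 ∧ p ∈ b}.ncard = r) (he : 2 ≤ Fintype.card Δ)
    (hek : 3 ≤ Fintype.card Δ ∨ 3 ≤ k) :
    Aut (blowup Δ 𝓑) = wreath Δ (Aut 𝓑) := by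
  classical
  apply Set.Subset.antisymm
  · intro g hg
    by_cases hV : Nonempty V
    · obtain ⟨p0⟩ := hV
      have h1 := same_fibre hk hk2 hr1 hr he hek hg
      have h2 := same_fibre hk hk2 hr1 hr he hek (symm_mem_Aut hg)
      have hσ : Function.Injective fun j => (g (p0, j)).2 := by
        intro j j' hjj
        have h3 := h2 _ _ hjj
        simpa using h3
      have hσ' : Function.Bijective fun j => (g (p0, j)).2 := Finite.injective_iff_bijective.1 hσ
      have hh : ∀ j, Function.Injective fun p => (g (p, j)).1 := by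
        intro j p p' hpp
        have h3 := h1 (p, j) (p', j) rfl
        have h4 : g (p, j) = g (p', j) := Prod.ext hpp h3
        exact congrArg Prod.fst (g.injective h4)
      have hh' : ∀ j, Function.Bijective fun p => (g (p, j)).1 :=
        fun j => Finite.injective_iff_bijective.1 (hh j)
      have hgh : ∀ p j, g (p, j) =
          (Equiv.ofBijective _ (hh' j) p, Equiv.ofBijective _ hσ' j) := by
        intro p j
        exact Prod.ext rfl (h1 (p, j) (p0, j) rfl)
      refine ⟨fun j => Equiv.ofBijective _ (hh' j), Equiv.ofBijective _ hσ', ?_, hgh⟩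
      intro j
      apply aut_of_iff
      intro b
      by_cases hb : 2 ≤ b.card
      · exact fibre_block hg (fun j => Equiv.ofBijective _ (hh' j)) (Equiv.ofBijective _ hσ') hgh
          p0 j b hb
      · constructor
        · intro h
          have := hk _ h
          rw [card_map] at this
          omega
        · intro h
          have := hk _ h
          omega
    · refine ⟨fun _ => Equiv.refl V, Equiv.refl Δ, ?_, ?_⟩
      · intro j
        apply aut_of_iff
        intro b
        have : b.map (Equiv.refl V).toEmbedding = b := by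
          ext x
          simp
        rw [this]
      · intro p
        exact absurd ⟨p⟩ hV
  · intro g hg
    apply aut_of_iff
    intro B
    constructor
    · intro h
      have h1 := wreath_le _ (wreath_symm g hg) h
      have h2 : (B.map g.toEmbedding).map g.symm.toEmbedding = B := by
        ext x
        simp
      rwa [h2] at h1
    · exact wreath_le g hg

end Pool.Agent.Results.MP_482303_co.WreathAutomorphisms
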